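import Pool.Agent.Helper56.EC_C.K4

/-!
# MP_ecc237_nt (S18871), PART C, packet K2
-/

set_option autoImplicit false

namespace ECC.PkK2

open EC237 ECC ECC.PkK4

theorem kernel2 (a b : ℤ) : e6 (a - b) - e6 (a + b) = (3 / 2 * psi a) * psi b := by
  have ha : a % 6 = 0 ∨ a % 6 = 1 ∨ a % 6 = 2 ∨ a % 6 = 3 ∨ a % 6 = 4 ∨ a % 6 = 5 := by omega
  have hb : b % 6 = 0 ∨ b % 6 = 1 ∨ b % 6 = 2 ∨ b % 6 = 3 ∨ b % 6 = 4 ∨ b % 6 = 5 := by omega
  rcases ha with ha | ha | ha | ha | ha | ha <;> rcases hb with hb | hb | hb | hb | hb | hb <;>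
    (simp [psi, e6, Int.sub_emod, Int.add_emod, ha, hb] <;> norm_num)

theorem e6_neg (n : ℤ) : e6 (-n) = e6 n := by
  have ha : n % 6 = 0 ∨ n % 6 = 1 ∨ n % 6 = 2 ∨ n % 6 = 3 ∨ n % 6 = 4 ∨ n % 6 = 5 := by omega
  rcases ha with ha | ha | ha | ha | ha | ha
  · have h : (-n) % 6 = 0 := by omega
    simp [e6, ha, h]
  · have h : (-n) % 6 = 5 := by omega
    simp [e6, ha, h]
  · have h : (-n) % 6 = 4 := by omega
    simp [e6, ha, h]
  · have h : (-n) % 6 = 3 := by omega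
    simp [e6, ha, h]
  · have h : (-n) % 6 = 2 := by omega
    simp [e6, ha, h]
  · have h : (-n) % 6 = 1 := by omega
    simp [e6, ha, h]

theorem sum_e6 (M : ℕ) (hM : 1 ≤ M) : ∑ j ∈ Finset.Ico 1 M, e6 (j:ℤ) =
    -1 / 2 + 3 / 4 * psi (M:ℤ) - 1 / 2 * e6 (M:ℤ) := by
  induction M, hM using Nat.le_induction with
  | base => simp [psi, e6]; norm_num
  | succ M hM ih =>
    rw [Finset.sum_Ico_succ_top hM, ih]
    have ha : (M:ℤ) % 6 = 0 ∨ (M:ℤ) % 6 = 1 ∨ (M:ℤ) % 6 = 2 ∨ (M:ℤ) % 6 = 3 ∨ (M:ℤ) % 6 = 4 ∨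
      (M:ℤ) % 6 = 5 := by omega
    rcases ha with ha | ha | ha | ha | ha | ha <;>
      (push_cast; simp [psi, e6, Int.add_emod, ha] <;> norm_num)

theorem LS_sN {d : ℕ} (hd : 1 ≤ d) (q : ℝ) :
    LS (fun M ν => if d ∣ M then (ν:ℝ) else 0) q = GS (q ^ d) := by
  rw [LS_sieveM (fun _ ν => (ν:ℝ)) hd]
  rfl

theorem LS_Ne6 {q : ℝ} (hq : |q| < 1) : LS (fun M ν => (ν:ℝ) * e6 (M:ℤ)) q =
    1 / 2 * (GS q - 2 * GS (q ^ 2) - 3 * GS (q ^ 3) + 6 * GS (q ^ 6)) := by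
  have p1 : PG (fun _ ν => (ν:ℝ)) := PG.N
  have p2 : PG (fun M ν => 2 * (if 2 ∣ M then (ν:ℝ) else 0)) := (PG.const 2).mul (PG.N.ite _)
  have p3 : PG (fun M ν => 3 * (if 3 ∣ M then (ν:ℝ) else 0)) := (PG.const 3).mul (PG.N.ite _)
  have p6 : PG (fun M ν => 6 * (if 6 ∣ M then (ν:ℝ) else 0)) := (PG.const 6).mul (PG.N.ite _)
  have e1 : LS (fun M ν => (ν:ℝ) * e6 (M:ℤ)) q =
      LS (fun M ν => 1 / 2 * ((((ν:ℝ) - 2 * (if 2 ∣ M then (ν:ℝ) else 0))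
    - 3 * (if 3 ∣ M then (ν:ℝ) else 0)) + 6 * (if 6 ∣ M then (ν:ℝ) else 0))) q := by
    refine LS_congr (fun M ν hM _ => ?_) q
    have h := e6_eq M
    have hM0 : (M:ℝ) ≠ 0 := by
      have : (1:ℝ) ≤ M := by exact_mod_cast hM
      linarith
    have h2 : e6 (M:ℤ) = 1 / 2 * ((((1:ℝ) - 2 * (if 2 ∣ M then (1:ℝ) else 0))
        - 3 * (if 3 ∣ M then (1:ℝ) else 0)) + 6 * (if 6 ∣ M then (1:ℝ) else 0)) := by
      apply mul_left_cancel₀ hM0
      rw [h]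
      split_ifs <;> ring
    rw [h2]
    split_ifs <;> ring
  rw [e1, LS_mul_left, LS_add ((p1.sub p2).sub p3) p6 hq, LS_sub (p1.sub p2) p3 hq,
    LS_sub p1 p2 hq, LS_mul_left, LS_mul_left, LS_mul_left, LS_sN (by norm_num),
    LS_sN (by norm_num), LS_sN (by norm_num)]
  unfold GS; ring

theorem k2 (ram : G_RAM) : G_K2 := by
  intro q hq
  have pψ : PG (fun M _ => psi (M:ℤ)) := PG.psi
  have pe : PG (fun M _ => e6 (M:ℤ)) := PG.e6
  have pMe : PG (fun M _ => (M:ℝ) * e6 (M:ℤ)) := PG.M.mul PG.e6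
  have hR := ram e6 1 (fun _ n => 3 / 2 * psi n) (fun _ n => psi n) 2 1 e6_neg
    (fun n => by
      have h1 := abs_e6_le n
      have h2 := abs_nonneg (n:ℝ)
      rw [pow_one]; linarith)
    (fun i n => by
      have h1 := abs_psi_le n
      have h2 := abs_nonneg (n:ℝ)
      rw [abs_mul, pow_one, abs_of_pos (by norm_num : (0:ℝ) < 3 / 2)]; linarith)
    (fun i n => by
      have h1 := abs_psi_le n
      have h2 := abs_nonneg (n:ℝ)
      rw [pow_one]; linarith)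
    (fun a b _ _ => by
      rw [Finset.sum_range_one]
      exact kernel2 a b) q hq
  rw [Finset.sum_range_one] at hR
  rw [LS_mul_left] at hR
  have g0 : e6 0 = 1 := by simp [e6]
  have s2 : LS (fun M _ => ((M:ℝ) + 1) * e6 (M:ℤ)) q =
      LS (fun M _ => (M:ℝ) * e6 (M:ℤ)) q + LS (fun M _ => e6 (M:ℤ)) q := by
    rw [← LS_add pMe pe hq]
    exact LS_congr (fun M ν _ _ => by ring) q
  have s3 : LS (fun M _ => ∑ j ∈ Finset.Ico 1 M, e6 (j:ℤ)) q =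
      -1 / 2 * LS (fun _ _ => 1) q + 3 / 4 * LS (fun M _ => psi (M:ℤ)) q
        - 1 / 2 * LS (fun M _ => e6 (M:ℤ)) q := by
    rw [← LS_mul_left, ← LS_mul_left, ← LS_mul_left,
      ← LS_add ((PG.const (-1 / 2)).mul (PG.const 1)) ((PG.const (3 / 4)).mul pψ) hq,
      ← LS_sub (((PG.const (-1 / 2)).mul (PG.const 1)).add ((PG.const (3 / 4)).mul pψ))
        ((PG.const (1 / 2)).mul pe) hq]
    refine LS_congr (fun M ν hM _ => ?_) q
    have := sum_e6 M hM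
    rw [this]; ring
  have t1 : LS (fun M _ => psi (M:ℤ)) q = (aS q + 2 * aS (q ^ 2) - 3) / 6 := by
    have h := LS_psi_w (PG.const 1) hq
    simp only [one_mul] at h
    rw [h]; unfold aS; ring
  have t4 := LS_e6 hq
  have t5 := LS_Ne6 hq
  have t6 : LS (fun _ ν => (ν:ℝ)) q = GS q := rfl
  rw [g0, s2, s3, t1, t4, t5, t6] at hR
  linear_combination (24:ℝ) * hR

end ECC.PkK2
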